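import Pool.Agent.H216R2.BB.Z

set_option autoImplicit false

namespace Pool.Agent.H406R3.BetaTwoOrFour

/-- At least one of Catalan's constant `G = β(2) = ∑ (-1)^j/(2j+1)^2` and
`β(4) = ∑ (-1)^j/(2j+1)^4` is irrational. -/
theorem betaTwoOrFour : Irrational (∑' j : ℕ, (-1 : ℝ) ^ j / (2 * (j : ℝ) + 1) ^ 2) ∨
    Irrational (∑' j : ℕ, (-1 : ℝ) ^ j / (2 * (j : ℝ) + 1) ^ 4) :=
  Pool.Agent.H216R2.BB.Z_final

end Pool.Agent.H406R3.BetaTwoOrFour
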