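import Pool.Agent.H256R2.BM.ARCH
import Pool.Agent.H256R2.BM.BND2
import Pool.Agent.H256R2.BM.FIN
import Pool.Agent.H256R2.BM.FINR
import Pool.Agent.H256R2.BM.KEY
import Pool.Agent.H256R2.BM.NV
import Pool.Agent.H256R2.BM.PRI
import Pool.Agent.H256R2.BM.RA
import Pool.Agent.H256R2.BM.RC
import Pool.Agent.H256R2.BM.RHO
import Pool.Agent.H256R2.BM.RM
import Pool.Agent.H256R2.BM.ROW

set_option autoImplicit false

namespace Pool.Agent.H406R3

open Pool.Agent.H256R2.BM

/-- assembly of the tasks: the simultaneous irrationality measure of `β(2), β(4)` -/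
theorem cat_measure : S_FIN :=
  t_FIN (t_KEY (t_ARCH (t_BND (t_RHO t_RA t_RM (t_RC t_RM))) t_ROW) t_NV) t_PRI t_FINR

end Pool.Agent.H406R3
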